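import Mathlib

set_option autoImplicit false

/-!
# Wilson primes of order `n`
-/

namespace Pool.Agent.Q43.WP

open Finset Polynomial

/-- `(n-1)! (p-n)! ≡ (-1)^n l` modulo `p²` (`1 ≤ n ≤ p`) -/
def IsOrd (l : ℤ) (n p : ℕ) : Prop := p.Prime ∧ 1 ≤ n ∧ n ≤ p ∧
  ((p : ℤ) ^ 2 ∣ ((n - 1).factorial * (p - n).factorial : ℤ) - (-1) ^ n * l)

/-- the derivative of `X (X + 1) ⋯ (X + d - 1)` at `n` -/
noncomputable def G (d n : ℕ) : ℤ := (derivative (ascPochhammer ℤ d)).eval (n : ℤ)

lemma G_zero (n : ℕ) : G 0 n = 0 := by simp [G]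

lemma G_succ (d n : ℕ) : G (d + 1) n = G d n * (n + d) + (n.ascFactorial d : ℤ) := by
  unfold G
  rw [ascPochhammer_succ_right, derivative_mul, eval_add, eval_mul, eval_mul,
    ← ascPochhammer_nat_eq_natCast_ascFactorial]
  simp

lemma G_pos (d n : ℕ) (hd : 1 ≤ d) (hn : 1 ≤ n) : 0 < G d n := by
  induction d, hd using Nat.le_induction with
  | base =>
    rw [G_succ, G_zero]
    simp
  | succ d hd ih =>
    rw [G_succ]
    have h1 : (0 : ℤ) ≤ (n.ascFactorial d : ℤ) := Int.natCast_nonneg _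
    have h2 : (0 : ℤ) < (n : ℤ) + d := by positivity
    have := mul_pos ih h2
    linarith

lemma G_le (d n y : ℕ) (h : n + d ≤ y + 1) (hn : 1 ≤ n) : G d n * y ≤ d * (y : ℤ) ^ d := by
  induction d with
  | zero => simp [G_zero]
  | succ d ih =>
    have h1 := ih (by omega)
    rw [G_succ]
    have h2 : (n.ascFactorial d : ℤ) ≤ (y : ℤ) ^ d := by
      have h3 : ∀ k : ℕ, n + k ≤ y + 1 → n.ascFactorial k ≤ y ^ k := by
        intro k
        induction k with
        | zero => intro _; simp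
        | succ k ihk =>
          intro hk
          rw [Nat.ascFactorial_succ, pow_succ, mul_comm]
          exact Nat.mul_le_mul (ihk (by omega)) (by omega)
      exact_mod_cast h3 d (by omega)
    have h4 : (n : ℤ) + d ≤ y := by
      have : n + d ≤ y := by omega
      exact_mod_cast this
    have hy : (0 : ℤ) ≤ y := Int.natCast_nonneg _
    have h5 : (0 : ℤ) ≤ n + d := by positivity
    have h6 : (0 : ℤ) ≤ (d : ℤ) * (y : ℤ) ^ d := by positivity
    push_cast
    calc (G d n * (n + d) + (n.ascFactorial d : ℤ)) * y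
        = (G d n * y) * (n + d) + (n.ascFactorial d : ℤ) * y := by ring
      _ ≤ (d * (y : ℤ) ^ d) * (n + d) + (y : ℤ) ^ d * y := by gcongr
      _ ≤ (d * (y : ℤ) ^ d) * y + (y : ℤ) ^ d * y := by gcongr
      _ = _ := by ring

/-- **Two orders.** -/
lemma coin {l : ℤ} {p n m : ℕ} (hn : IsOrd l n p) (hm : IsOrd l m p) (h : n < m) : (p : ℤ) ∣ G (m - n) n := by
  obtain ⟨hp, hn1, hnp, hn2⟩ := hn
  obtain ⟨_, hm1, hmp, hm2⟩ := hm
  set d := m - n with hd
  set A : ℤ := (((n - 1).factorial : ℕ) : ℤ) with hA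
  set B : ℤ := (((p - m).factorial : ℕ) : ℤ) with hB
  set P : ℤ := ((n.ascFactorial d : ℕ) : ℤ) with hP
  set Q : ℤ := (((p - n).descFactorial d : ℕ) : ℤ) with hQ
  have e1 : ((m - 1).factorial : ℤ) = A * P := by
    rw [hA, hP]
    have := Nat.factorial_mul_ascFactorial' n d (by omega)
    rw [show n + d - 1 = m - 1 by omega] at this
    exact_mod_cast this.symm
  have e2 : ((p - n).factorial : ℤ) = B * Q := by
    rw [hB, hQ]
    have := Nat.factorial_mul_descFactorial (n := p - n) (k := d) (by omega)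
    rw [show p - n - d = p - m by omega] at this
    exact_mod_cast this.symm
  rw [e2] at hn2
  rw [e1] at hm2
  have f1 : (ascPochhammer ℤ d).eval (n : ℤ) = P := by
    rw [hP, ascPochhammer_nat_eq_natCast_ascFactorial]
  have f2 : (ascPochhammer ℤ d).eval ((n : ℤ) + (-(p : ℤ))) = (-1) ^ d * Q := by
    have : (n : ℤ) + (-(p : ℤ)) = -((p - n : ℕ) : ℤ) := by
      rw [Nat.cast_sub hnp]; ring
    rw [this, ascPochhammer_eval_neg_eq_descPochhammer, descPochhammer_eval_eq_descFactorial]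
  obtain ⟨k, hk⟩ := binomExpansion (ascPochhammer ℤ d) (n : ℤ) (-(p : ℤ))
  rw [f1, f2] at hk
  have hk' : (-1) ^ d * Q = P + G d n * (-(p : ℤ)) + k * (-(p : ℤ)) ^ 2 := hk
  have hsgn : ((-1 : ℤ)) ^ m = (-1) ^ n * (-1) ^ d := by rw [← pow_add]; congr 1; omega
  -- the difference
  have h3 : (p : ℤ) ^ 2 ∣ A * B * (P - (-1) ^ d * Q) := by
    have h4 : A * B * (P - (-1) ^ d * Q) = (A * P * B - (-1) ^ m * l) -
        (-1) ^ d * (A * (B * Q) - (-1) ^ n * l) := by
      rw [hsgn]; ring
    rw [h4]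
    exact dvd_sub hm2 (Dvd.dvd.mul_left hn2 _)
  have h5 : P - (-1) ^ d * Q = p * (G d n - k * p) := by rw [hk']; ring
  rw [h5, ← mul_assoc, mul_comm (A * B), mul_assoc, pow_two] at h3
  have hp0 : (p : ℤ) ≠ 0 := by exact_mod_cast hp.ne_zero
  have h6 : (p : ℤ) ∣ A * B * (G d n - k * p) := (mul_dvd_mul_iff_left hp0).1 h3
  have hpi : Prime (p : ℤ) := Nat.prime_iff_prime_int.1 hp
  have hA' : ¬ (p : ℤ) ∣ A := by
    rw [hA]
    intro hc
    have : p ∣ (n - 1).factorial := by exact_mod_cast hc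
    rw [hp.dvd_factorial] at this
    omega
  have hB' : ¬ (p : ℤ) ∣ B := by
    rw [hB]
    intro hc
    have : p ∣ (p - m).factorial := by exact_mod_cast hc
    rw [hp.dvd_factorial] at this
    omega
  rcases hpi.dvd_or_dvd h6 with h7 | h7
  · rcases hpi.dvd_or_dvd h7 with h8 | h8
    · exact absurd h8 hA'
    · exact absurd h8 hB'
  · have := dvd_add h7 (dvd_mul_left (p : ℤ) k)
    rwa [sub_add_cancel] at this

/-- the residues `n` with `p ∣ G d n` -/
lemma roots {p d M N : ℕ} (hp : p.Prime) (hd : 1 ≤ d) (hdp : d < p) (hN : N ≤ p) :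
    ((Ioc M (M + N)).filter fun n => (p : ℤ) ∣ G d n).card ≤ d - 1 := by
  classical
  have : Fact p.Prime := ⟨hp⟩
  set f : (ZMod p)[X] := derivative (ascPochhammer (ZMod p) d) with hf
  have hmap : (derivative (ascPochhammer ℤ d)).map (Int.castRingHom (ZMod p)) = f := by
    rw [hf, ← ascPochhammer_map (Int.castRingHom (ZMod p)) d, derivative_map]
  have hdeg : f.natDegree ≤ d - 1 := by
    refine (natDegree_derivative_le _).trans ?_
    rw [ascPochhammer_natDegree]
  have hcoef : f.coeff (d - 1) ≠ 0 := by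
    rw [hf, coeff_derivative, show d - 1 + 1 = d by omega]
    have h1 : (ascPochhammer (ZMod p) d).coeff d = 1 := by
      have := monic_ascPochhammer (ZMod p) d
      rw [Monic, leadingCoeff, ascPochhammer_natDegree] at this
      exact this
    rw [h1, one_mul]
    have h2 : ((d - 1 : ℕ) : ZMod p) + 1 = (d : ZMod p) := by
      have : d - 1 + 1 = d := by omega
      exact_mod_cast congrArg (Nat.cast : ℕ → ZMod p) this
    rw [h2]
    intro h3
    rw [ZMod.natCast_eq_zero_iff] at h3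
    have := Nat.le_of_dvd (by omega) h3
    omega
  have hf0 : f ≠ 0 := by
    intro h
    rw [h] at hcoef
    simp at hcoef
  have hinj : Set.InjOn (fun n : ℕ => (n : ZMod p)) ((Ioc M (M + N)).filter fun n => (p : ℤ) ∣ G d n) := by
    intro a ha b hb hab
    simp only [coe_filter, mem_Ioc, Set.mem_ofPred_eq] at ha hb
    have h1 : a ≡ b [MOD p] := (ZMod.natCast_eq_natCast_iff a b p).1 hab
    rcases le_total a b with h | h
    · have h2 := (Nat.modEq_iff_dvd' h).1 h1
      by_contra hne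
      have := Nat.le_of_dvd (by omega) h2
      omega
    · have h2 := (Nat.modEq_iff_dvd' h).1 h1.symm
      by_contra hne
      have := Nat.le_of_dvd (by omega) h2
      omega
  calc ((Ioc M (M + N)).filter fun n => (p : ℤ) ∣ G d n).card
      ≤ f.roots.toFinset.card := by
        refine card_le_card_of_injOn (fun n : ℕ => (n : ZMod p)) ?_ hinj
        intro n hn
        simp only [coe_filter, mem_Ioc, Set.mem_ofPred_eq] at hn
        rw [Finset.mem_coe, Multiset.mem_toFinset, mem_roots hf0, IsRoot.def, ← hmap]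
        show eval ((n : ℕ) : ZMod p) _ = 0
        rw [show ((n : ℕ) : ZMod p) = ((n : ℤ) : ZMod p) by push_cast; rfl, eval_intCast_map]
        exact (ZMod.intCast_zmod_eq_zero_iff_dvd _ p).2 hn.2
    _ ≤ f.roots.card := Multiset.toFinset_card_le _
    _ ≤ f.natDegree := card_roots' _
    _ ≤ d - 1 := hdeg

/-- the large primes which divide `G d n` -/
lemma large {x d n : ℕ} (hd : 1 ≤ d) (hn : 1 ≤ n) (hx : n + d ≤ x) (S : Finset ℕ)
    (hS : ∀ p ∈ S, p.Prime ∧ x < p ∧ (p : ℤ) ∣ G d n) : S.card ≤ d - 1 := by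
  classical
  have hG := G_pos d n hd hn
  have hx0 : 0 < x := by omega
  obtain ⟨g, hg⟩ := Int.eq_ofNat_of_zero_le hG.le
  have hg0 : 0 < g := by
    have : (0 : ℤ) < (g : ℤ) := by rw [← hg]; exact hG
    exact_mod_cast this
  have hdvd : ∏ p ∈ S, p ∣ g := by
    refine Finset.prod_primes_dvd g (fun p hp => (hS p hp).1.prime) fun p hp => ?_
    have := (hS p hp).2.2
    rw [hg] at this
    exact_mod_cast this
  have h1 : (x + 1) ^ S.card ≤ g := by
    calc (x + 1) ^ S.card = ∏ _p ∈ S, (x + 1) := by rw [prod_const]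
      _ ≤ ∏ p ∈ S, p := Finset.prod_le_prod' fun p hp => (hS p hp).2.1
      _ ≤ g := Nat.le_of_dvd hg0 hdvd
  have h2 := G_le d n x (by omega) hn
  rw [hg] at h2
  have h3 : g * x ≤ d * x ^ d := by exact_mod_cast h2
  have h4 : g ≤ d * x ^ (d - 1) := by
    have e : x ^ d = x ^ (d - 1) * x := by rw [← pow_succ]; congr 1; omega
    rw [e, ← mul_assoc] at h3
    exact Nat.le_of_mul_le_mul_right h3 hx0
  by_contra hc
  push Not at hc
  have hc' : d ≤ S.card := by omega
  have h5 : (x + 1) ^ d ≤ g := (Nat.pow_le_pow_right (by omega) hc').trans h1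
  have h6 : d * x ^ (d - 1) < (x + 1) ^ d := by
    have e : (x + 1) ^ d = (x + 1) * (x + 1) ^ (d - 1) := by rw [← pow_succ']; congr 1; omega
    rw [e]
    calc d * x ^ (d - 1) < (x + 1) * x ^ (d - 1) :=
          Nat.mul_lt_mul_of_pos_right (by omega) (by positivity)
      _ ≤ _ := Nat.mul_le_mul_left _ (Nat.pow_le_pow_left (by omega) _)
  omega

/-- **Gaps.** -/
lemma gaps (O : ℕ → Prop) [DecidablePred O] (M N D : ℕ) (hN : 1 ≤ N) :
    ((Ioc M (M + N)).filter O).card ≤ (N - 1) / (D + 1) + 1 +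
      ∑ d ∈ Icc 1 D, ((Ioc M (M + N)).filter fun n => O n ∧ n + d ≤ M + N ∧ O (n + d)).card := by
  classical
  set S := (Ioc M (M + N)).filter O with hS
  set S1 := S.filter (fun n => ∃ d ∈ Icc 1 D, n + d ≤ M + N ∧ O (n + d)) with hS1
  set S2 := S.filter (fun n => ¬ ∃ d ∈ Icc 1 D, n + d ≤ M + N ∧ O (n + d)) with hS2
  have hsplit : S.card = S1.card + S2.card := (Finset.card_filter_add_card_filter_not _).symm
  have h1 : S1.card ≤ ∑ d ∈ Icc 1 D,
      ((Ioc M (M + N)).filter fun n => O n ∧ n + d ≤ M + N ∧ O (n + d)).card := by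
    refine (card_le_card ?_).trans (Finset.card_biUnion_le (s := Icc 1 D)
      (t := fun d => (Ioc M (M + N)).filter fun n => O n ∧ n + d ≤ M + N ∧ O (n + d)))
    intro n hn
    rw [hS1, mem_filter, hS, mem_filter] at hn
    obtain ⟨⟨g1, g2⟩, d, g3, g4, g5⟩ := hn
    rw [mem_biUnion]
    exact ⟨d, g3, mem_filter.2 ⟨g1, g2, g4, g5⟩⟩
  have h2 : S2.card ≤ (N - 1) / (D + 1) + 1 := by
    have hinj : Set.InjOn (fun n => (n - M - 1) / (D + 1)) (S2 : Set ℕ) := by
      have key : ∀ a ∈ S2, ∀ b ∈ S2, a < b → (a - M - 1) / (D + 1) ≠ (b - M - 1) / (D + 1) := by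
        intro a ha b hb hab he
        rw [hS2, mem_filter, hS, mem_filter, mem_Ioc] at ha hb
        obtain ⟨⟨⟨a1, a2⟩, a3⟩, a4⟩ := ha
        obtain ⟨⟨⟨b1, b2⟩, b3⟩, _⟩ := hb
        have hgap : b - a ≤ D := by
          have h3 := Nat.div_add_mod (a - M - 1) (D + 1)
          have h4 := Nat.div_add_mod (b - M - 1) (D + 1)
          have h5 := Nat.mod_lt (b - M - 1) (show 0 < D + 1 by omega)
          rw [he] at h3
          omega
        exact a4 ⟨b - a, mem_Icc.2 ⟨by omega, hgap⟩, by omega, by rwa [show a + (b - a) = b by omega]⟩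
      intro a ha b hb he
      rcases lt_trichotomy a b with h | h | h
      · exact absurd he (key a ha b hb h)
      · exact h
      · exact absurd he.symm (key b hb a ha h)
    have hmaps : ∀ n ∈ S2, (n - M - 1) / (D + 1) ∈ range ((N - 1) / (D + 1) + 1) := by
      intro n hn
      rw [hS2, mem_filter, hS, mem_filter, mem_Ioc] at hn
      rw [mem_range]
      exact Nat.lt_succ_of_le (Nat.div_le_div_right (by omega))
    calc S2.card ≤ (range ((N - 1) / (D + 1) + 1)).card := card_le_card_of_injOn _ hmaps hinj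
      _ = _ := card_range _
  omega

end Pool.Agent.Q43.WP
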