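import Mathlib
import Pool.Agent.Q43.WP.Ord

set_option autoImplicit false

/-!
# Wilson primes of order `n`: one prime, two orders, averages
-/

namespace Pool.Agent.Q43.WP

open Finset Polynomial

open Classical in
/-- one prime, a parameter `D` -/
lemma point {l : ℤ} {p M N : ℕ} (D : ℕ) (hp : p.Prime) (hN : 1 ≤ N) (h : M + N ≤ p) :
    ((Ioc M (M + N)).filter fun n => IsOrd l n p).card ≤ (N - 1) / (D + 1) + 1 +
      ∑ d ∈ Icc 1 D, (d - 1) := by
  refine (gaps (fun n => IsOrd l n p) M N D hN).trans (Nat.add_le_add_left (Finset.sum_le_sum ?_) _)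
  intro d hd
  rw [mem_Icc] at hd
  by_cases hdp : d < p
  · refine (card_le_card ?_).trans (roots (M := M) (N := N) hp hd.1 hdp (by omega))
    intro n hn
    rw [mem_filter] at hn ⊢
    obtain ⟨h1, h2, h3, h4⟩ := hn
    refine ⟨h1, ?_⟩
    have := coin h2 h4 (by omega)
    rwa [show n + d - n = d by omega] at this
  · have : ((Ioc M (M + N)).filter fun n => IsOrd l n p ∧ n + d ≤ M + N ∧ IsOrd l (n + d) p) = ∅ := by
      rw [filter_eq_empty_iff]
      intro n hn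
      rw [mem_Ioc] at hn
      rintro ⟨_, h2, _⟩
      omega
    rw [this, card_empty]
    exact Nat.zero_le _

lemma sum_pred (D : ℕ) : (∑ d ∈ Icc 1 D, ((d - 1 : ℕ) : ℝ)) ≤ (D : ℝ) ^ 2 / 2 := by
  induction D with
  | zero => simp
  | succ D ih =>
    rw [Finset.sum_Icc_succ_top (by omega)]
    rw [Nat.add_sub_cancel]
    push_cast
    have : (0 : ℝ) ≤ D := Nat.cast_nonneg D
    nlinarith

open Classical in
/-- **One prime.** -/
theorem point_real (l : ℤ) (p M N : ℕ) (hp : p.Prime) (h : M + N ≤ p) :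
    (((Ioc M (M + N)).filter fun n => IsOrd l n p).card : ℝ) ≤ 1 + 3 / 2 * (N : ℝ) ^ (2 / 3 : ℝ) := by
  rcases Nat.eq_zero_or_pos N with h0 | h0
  · subst h0
    simp only [add_zero, Ioc_self, filter_empty, card_empty, Nat.cast_zero]
    positivity
  set y : ℝ := (N : ℝ) ^ (1 / 3 : ℝ) with hy
  have hN0 : (0 : ℝ) < N := by exact_mod_cast h0
  have hy0 : 0 < y := by positivity
  have hy2 : y ^ 2 = (N : ℝ) ^ (2 / 3 : ℝ) := by
    rw [hy, ← Real.rpow_natCast, ← Real.rpow_mul hN0.le]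
    norm_num
  have hy3 : y * y ^ 2 = N := by
    rw [← pow_succ', hy, ← Real.rpow_natCast, ← Real.rpow_mul hN0.le]
    norm_num
  set D := ⌊y⌋₊ with hD
  have hD1 : (D : ℝ) ≤ y := Nat.floor_le hy0.le
  have hD2 : y < D + 1 := Nat.lt_floor_add_one y
  have h1 := point (l := l) (M := M) (N := N) D hp h0 h
  have h2 : (((Ioc M (M + N)).filter fun n => IsOrd l n p).card : ℝ) ≤
      (((N - 1) / (D + 1) : ℕ) : ℝ) + 1 + ∑ d ∈ Icc 1 D, ((d - 1 : ℕ) : ℝ) := by exact_mod_cast h1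
  have h3 : (((N - 1) / (D + 1) : ℕ) : ℝ) ≤ y ^ 2 := by
    refine Nat.cast_div_le.trans ?_
    rw [div_le_iff₀ (by positivity)]
    have h4 : ((N - 1 : ℕ) : ℝ) ≤ N := by exact_mod_cast Nat.sub_le N 1
    push_cast
    nlinarith [sq_nonneg y]
  have h4 := sum_pred D
  have h5 : (D : ℝ) ^ 2 ≤ y ^ 2 := by gcongr
  rw [← hy2]
  linarith

open Classical in
/-- the average over the orders, a parameter `D` -/
lemma avg {x M N : ℕ} (D : ℕ) (hN : 1 ≤ N) (h : M + N ≤ x) :
    ∑ n ∈ Ioc M (M + N), ((Ioc x (2 * x)).filter fun p => IsOrd 1 n p).card ≤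
      ((Ioc x (2 * x)).filter Nat.Prime).card * ((N - 1) / (D + 1) + 1) +
        N * ∑ d ∈ Icc 1 D, (d - 1) := by
  set I := Ioc M (M + N) with hI
  set P := (Ioc x (2 * x)).filter Nat.Prime with hP
  have e1 : ∑ n ∈ I, ((Ioc x (2 * x)).filter fun p => IsOrd 1 n p).card =
      ∑ p ∈ P, (I.filter fun n => IsOrd 1 n p).card := by
    have e2 : ∀ n ∈ I, ((Ioc x (2 * x)).filter fun p => IsOrd 1 n p) =
        P.filter (fun p => IsOrd 1 n p) := by
      intro n _
      ext p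
      simp only [hP, mem_filter, mem_Ioc]
      exact ⟨fun h => ⟨⟨h.1, h.2.1⟩, h.2⟩, fun h => ⟨h.1.1, h.2⟩⟩
    rw [Finset.sum_congr rfl fun n hn => congrArg Finset.card (e2 n hn)]
    simp only [Finset.card_filter]
    exact Finset.sum_comm
  rw [e1]
  have h1 : ∀ p ∈ P, (I.filter fun n => IsOrd 1 n p).card ≤ ((N - 1) / (D + 1) + 1) +
      ∑ d ∈ Icc 1 D, (I.filter fun n => (p : ℤ) ∣ G d n ∧ n + d ≤ x).card := by
    intro p _
    refine (gaps (fun n => IsOrd 1 n p) M N D hN).trans (Nat.add_le_add_left (Finset.sum_le_sum ?_) _)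
    intro d hd
    rw [mem_Icc] at hd
    refine card_le_card ?_
    intro n hn
    rw [mem_filter] at hn ⊢
    obtain ⟨h1, h2, h3, h4⟩ := hn
    have := coin h2 h4 (by omega)
    rw [show n + d - n = d by omega] at this
    exact ⟨h1, this, by omega⟩
  refine (Finset.sum_le_sum h1).trans ?_
  rw [Finset.sum_add_distrib, Finset.sum_const, smul_eq_mul]
  refine Nat.add_le_add_left ?_ _
  rw [Finset.sum_comm, Finset.mul_sum]
  refine Finset.sum_le_sum fun d hd => ?_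
  rw [mem_Icc] at hd
  have e3 : ∑ p ∈ P, (I.filter fun n => (p : ℤ) ∣ G d n ∧ n + d ≤ x).card =
      ∑ n ∈ I, (P.filter fun p : ℕ => (p : ℤ) ∣ G d n ∧ n + d ≤ x).card := by
    simp only [Finset.card_filter]
    exact Finset.sum_comm
  rw [e3]
  have h2 : ∀ n ∈ I, (P.filter fun p : ℕ => (p : ℤ) ∣ G d n ∧ n + d ≤ x).card ≤ d - 1 := by
    intro n hn
    rw [hI, mem_Ioc] at hn
    by_cases hnd : n + d ≤ x
    · refine large hd.1 (by omega) hnd _ fun p hp => ?_
      rw [mem_filter, hP, mem_filter, mem_Ioc] at hp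
      exact ⟨hp.1.2, hp.1.1.1, hp.2.1⟩
    · have : (P.filter fun p : ℕ => (p : ℤ) ∣ G d n ∧ n + d ≤ x) = ∅ := by
        rw [filter_eq_empty_iff]
        intro p _ hc
        exact hnd hc.2
      rw [this, card_empty]
      exact Nat.zero_le _
  refine (Finset.sum_le_sum h2).trans (le_of_eq ?_)
  rw [Finset.sum_const, smul_eq_mul, hI, Nat.card_Ioc, Nat.add_sub_cancel_left]

lemma primes_le {x : ℕ} (hx : 2 ≤ x) :
    (((Ioc x (2 * x)).filter Nat.Prime).card : ℝ) ≤ 3 * (x / Real.log x) := by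
  have hx0 : (0 : ℝ) < x := by exact_mod_cast (by omega : 0 < x)
  have hx1 : (1 : ℝ) < x := by exact_mod_cast (by omega : 1 < x)
  have hlog : 0 < Real.log x := Real.log_pos hx1
  have h1 : (((Ioc x (2 * x)).filter Nat.Prime).card : ℝ) * Real.log x ≤ Chebyshev.theta (2 * x) := by
    rw [Chebyshev.theta_eq_sum_Icc, ← nsmul_eq_mul, ← Finset.sum_const]
    have hfl : ⌊(2 * x : ℝ)⌋₊ = 2 * x := by
      rw [show (2 * x : ℝ) = ((2 * x : ℕ) : ℝ) by push_cast; ring, Nat.floor_natCast]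
    rw [hfl]
    calc ∑ _p ∈ (Ioc x (2 * x)).filter Nat.Prime, Real.log x
        ≤ ∑ p ∈ (Ioc x (2 * x)).filter Nat.Prime, Real.log p := by
          refine Finset.sum_le_sum fun p hp => ?_
          rw [mem_filter, mem_Ioc] at hp
          refine Real.log_le_log hx0 ?_
          exact_mod_cast hp.1.1.le
      _ ≤ _ := by
          refine Finset.sum_le_sum_of_subset_of_nonneg ?_ fun p _ _ => Real.log_natCast_nonneg p
          intro p hp
          rw [mem_filter, mem_Ioc] at hp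
          rw [mem_filter, mem_Icc]
          exact ⟨⟨Nat.zero_le _, hp.1.2⟩, hp.2⟩
  have h2 : Chebyshev.theta (2 * x) ≤ Real.log 4 * (2 * x) :=
    Chebyshev.theta_le_log4_mul_x (by positivity)
  have h3 : Real.log 4 ≤ 3 / 2 := by
    have e : Real.log 4 = 2 * Real.log 2 := by
      rw [show (4 : ℝ) = 2 ^ 2 by norm_num, Real.log_pow]; norm_num
    have h5 := Real.log_two_lt_d9
    rw [e]
    linarith
  rw [← mul_div_assoc, le_div_iff₀ hlog]
  calc _ ≤ Real.log 4 * (2 * x) := h1.trans h2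
    _ ≤ 3 / 2 * (2 * x) := by gcongr
    _ = 3 * x := by ring

open Classical in
/-- **The average over the orders.** -/
theorem avg_real (x M N : ℕ) (hx : 2 ≤ x) (h : M + N ≤ x) :
    (∑ n ∈ Ioc M (M + N), (((Ioc x (2 * x)).filter fun p => IsOrd 1 n p).card : ℝ)) ≤
      (((Ioc x (2 * x)).filter Nat.Prime).card : ℝ) + 4 * N * (x / Real.log x) ^ (2 / 3 : ℝ) := by
  have hx0 : (0 : ℝ) < x := by exact_mod_cast (by omega : 0 < x)
  have hx1 : (1 : ℝ) < x := by exact_mod_cast (by omega : 1 < x)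
  have hlog : 0 < Real.log x := Real.log_pos hx1
  rcases Nat.eq_zero_or_pos N with h0 | h0
  · subst h0
    simp only [add_zero, Ioc_self, sum_empty, Nat.cast_zero]
    positivity
  set z : ℝ := x / Real.log x with hz
  have hz0 : 0 < z := by positivity
  set y : ℝ := z ^ (1 / 3 : ℝ) with hy
  have hN0 : (0 : ℝ) < N := by exact_mod_cast h0
  have hy0 : 0 < y := by positivity
  have hy2 : y ^ 2 = z ^ (2 / 3 : ℝ) := by
    rw [hy, ← Real.rpow_natCast, ← Real.rpow_mul hz0.le]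
    norm_num
  have hy3 : y * y ^ 2 = z := by
    rw [← pow_succ', hy, ← Real.rpow_natCast, ← Real.rpow_mul hz0.le]
    norm_num
  set D := ⌊y⌋₊ with hD
  have hD1 : (D : ℝ) ≤ y := Nat.floor_le hy0.le
  have hD2 : y < D + 1 := Nat.lt_floor_add_one y
  have h1 := avg (x := x) (M := M) (N := N) D h0 h
  set P : ℝ := (((Ioc x (2 * x)).filter Nat.Prime).card : ℝ) with hP
  have hP0 : 0 ≤ P := Nat.cast_nonneg _
  have hPz : P ≤ 3 * z := primes_le hx
  have h2 : (∑ n ∈ Ioc M (M + N), (((Ioc x (2 * x)).filter fun p => IsOrd 1 n p).card : ℝ)) ≤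
      P * ((((N - 1) / (D + 1) : ℕ) : ℝ) + 1) + N * ∑ d ∈ Icc 1 D, ((d - 1 : ℕ) : ℝ) := by
    rw [hP]
    exact_mod_cast h1
  have h3 : (((N - 1) / (D + 1) : ℕ) : ℝ) ≤ N / y := by
    refine Nat.cast_div_le.trans ?_
    have h4 : ((N - 1 : ℕ) : ℝ) ≤ N := by exact_mod_cast Nat.sub_le N 1
    have h5 : y ≤ ((D + 1 : ℕ) : ℝ) := by push_cast; exact hD2.le
    exact div_le_div₀ hN0.le h4 hy0 h5
  have h4 := sum_pred D
  have h5 : (D : ℝ) ^ 2 ≤ y ^ 2 := by gcongr
  rw [← hy2]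
  calc _ ≤ P * ((((N - 1) / (D + 1) : ℕ) : ℝ) + 1) + N * ∑ d ∈ Icc 1 D, ((d - 1 : ℕ) : ℝ) := h2
    _ ≤ P * (N / y + 1) + N * ((D : ℝ) ^ 2 / 2) := by gcongr
    _ ≤ P * (N / y) + P + N * (y ^ 2 / 2) := by
        have : (N : ℝ) * ((D : ℝ) ^ 2 / 2) ≤ N * (y ^ 2 / 2) := by gcongr
        linarith
    _ ≤ 3 * z * (N / y) + P + N * (y ^ 2 / 2) := by gcongr
    _ = 3 * N * y ^ 2 + P + N * (y ^ 2 / 2) := by
        rw [← hy3]
        field_simp
    _ ≤ P + 4 * N * y ^ 2 := by nlinarith [mul_pos hN0 (pow_pos hy0 2)]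

/-- **Two orders**: few common primes. -/
theorem common {l : ℤ} {n m : ℕ} (h : n < m) (S : Finset ℕ)
    (hS : ∀ p ∈ S, m < p ∧ IsOrd l n p ∧ IsOrd l m p) : S.card ≤ m - n - 1 := by
  rcases S.eq_empty_or_nonempty with h0 | ⟨p0, hp0⟩
  · rw [h0, card_empty]
    exact Nat.zero_le _
  have hn := (hS p0 hp0).2.1.2.1
  refine large (x := m) (d := m - n) (n := n) (by omega) hn (by omega) S fun p hp => ?_
  obtain ⟨h1, h2, h3⟩ := hS p hp
  exact ⟨h2.1, h1, coin h2 h3 h⟩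

end Pool.Agent.Q43.WP
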