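import Mathlib
import Pool.Agent.Erdos456.Mertens

set_option autoImplicit false

/-!
# Arbitrary residue classes modulo the primes: the number of the classes which contain an integer
-/

namespace Pool.Agent.Q43.WP

open Finset

/-- integers of an interval in a residue class -/
lemma card_class (A : ℤ) (T : ℕ) {r : ℕ} (hr : 0 < r) (v : ℤ) :
    |((((Ioc A (A + T)).filter fun t => t ≡ v [ZMOD r]).card : ℝ)) - T / r| ≤ 1 := by
  have hr' : (0 : ℤ) < (r : ℤ) := by exact_mod_cast hr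
  have h := Int.Ioc_filter_modEq_card A (A + T) hr' v
  set a : ℚ := ((A : ℚ) - v) / ((r : ℤ) : ℚ) with ha
  set b : ℚ := (((A + T : ℤ) : ℚ) - v) / ((r : ℤ) : ℚ) with hb
  have hrq : (0 : ℚ) < ((r : ℤ) : ℚ) := by exact_mod_cast hr
  have hba : b - a = T / r := by
    rw [ha, hb]
    push_cast
    field_simp
    ring
  have h1 := Int.floor_le a
  have h2 := Int.lt_floor_add_one a
  have h3 := Int.floor_le b
  have h4 := Int.lt_floor_add_one b
  have hle : a ≤ b := by
    have : (0 : ℚ) ≤ (T : ℚ) / r := by positivity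
    linarith
  have h5 : ⌊a⌋ ≤ ⌊b⌋ := Int.floor_le_floor hle
  have h6 : ((((Ioc A (A + T)).filter fun t => t ≡ v [ZMOD r]).card : ℤ)) = ⌊b⌋ - ⌊a⌋ := by
    rw [h]
    exact max_eq_left (by linarith)
  have h7 : ((((Ioc A (A + T)).filter fun t => t ≡ v [ZMOD r]).card : ℚ)) = (⌊b⌋ : ℚ) - ⌊a⌋ := by
    exact_mod_cast congrArg (Int.cast : ℤ → ℚ) h6
  have h8 : |((((Ioc A (A + T)).filter fun t => t ≡ v [ZMOD r]).card : ℚ)) - T / r| ≤ 1 := by
    rw [h7, ← hba, abs_le]
    constructor <;> linarith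
  have h9 : (((|((((Ioc A (A + T)).filter fun t => t ≡ v [ZMOD r]).card : ℚ)) - T / r| : ℚ)) : ℝ) ≤
      ((1 : ℚ) : ℝ) := Rat.cast_le.2 h8
  push_cast at h9
  exact h9

/-- the number of the primes `p ≤ z` whose class contains `t` -/
noncomputable def cl (c : ℕ → ℤ) (P : Finset ℕ) (t : ℤ) : ℕ := (P.filter fun p : ℕ => t ≡ c p [ZMOD p]).card

lemma pair_class {p q : ℕ} (hp : p.Prime) (hq : q.Prime) (hpq : p ≠ q) (c : ℕ → ℤ) :
    ∃ v : ℤ, ∀ t : ℤ, (t ≡ c p [ZMOD p] ∧ t ≡ c q [ZMOD q]) ↔ t ≡ v [ZMOD (p * q : ℕ)] := by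
  have hcop : Nat.Coprime p q := (Nat.coprime_primes hp hq).2 hpq
  have hic : IsCoprime (p : ℤ) (q : ℤ) := Nat.isCoprime_iff_coprime.2 hcop
  obtain ⟨a, b, hab⟩ := hic
  refine ⟨c p * (b * q) + c q * (a * p), fun t => ?_⟩
  set v := c p * (b * q) + c q * (a * p) with hv
  have h1 : v ≡ c p [ZMOD p] := by
    rw [Int.modEq_iff_dvd]
    have : c p - v = (p : ℤ) * (a * (c p - c q)) := by
      rw [hv]
      linear_combination (-c p) * hab
    rw [this]
    exact dvd_mul_right _ _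
  have h2 : v ≡ c q [ZMOD q] := by
    rw [Int.modEq_iff_dvd]
    have : c q - v = (q : ℤ) * (b * (c q - c p)) := by
      rw [hv]
      linear_combination (-c q) * hab
    rw [this]
    exact dvd_mul_right _ _
  have hcr := Int.modEq_and_modEq_iff_modEq_mul (a := t) (b := v) (m := (p : ℤ)) (n := (q : ℤ))
    (by simpa using hcop)
  push_cast
  rw [← hcr]
  constructor
  · rintro ⟨g1, g2⟩
    exact ⟨g1.trans h1.symm, g2.trans h2.symm⟩
  · rintro ⟨g1, g2⟩
    exact ⟨g1.trans h1, g2.trans h2⟩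

/-- **Variance.** -/
lemma variance (c : ℕ → ℤ) (P : Finset ℕ) (hP : ∀ p ∈ P, p.Prime) (A : ℤ) (T : ℕ)
    (hPT : P.card ^ 2 ≤ T) :
    ∑ t ∈ Ioc A (A + T), ((cl c P t : ℝ) - ∑ p ∈ P, (1 : ℝ) / p) ^ 2 ≤
      4 * T * ((∑ p ∈ P, (1 : ℝ) / p) + 1) := by
  classical
  set μ : ℝ := ∑ p ∈ P, (1 : ℝ) / p with hμ
  set I := Ioc A (A + T) with hI
  have hμ0 : 0 ≤ μ := Finset.sum_nonneg fun p _ => by positivity
  set k : ℝ := (P.card : ℝ) with hk
  have hk0 : 0 ≤ k := Nat.cast_nonneg _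
  have hkT : k ^ 2 ≤ T := by rw [hk]; exact_mod_cast hPT
  have hkT' : k ≤ T := by
    rcases Nat.eq_zero_or_pos P.card with h0 | h0
    · rw [hk, h0]; simp
    · have : (1 : ℝ) ≤ k := by rw [hk]; exact_mod_cast h0
      nlinarith
  have hIc : (I.card : ℝ) = T := by
    rw [hI, Int.card_Ioc]
    simp
  -- the first moment
  have e1 : ∑ t ∈ I, (cl c P t : ℝ) = ∑ p ∈ P, (((I.filter fun t => t ≡ c p [ZMOD p]).card : ℝ)) := by
    unfold cl
    simp only [Finset.card_filter, Nat.cast_sum]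
    exact Finset.sum_comm
  have m1 : T * μ - k ≤ ∑ t ∈ I, (cl c P t : ℝ) := by
    rw [e1, hμ, Finset.mul_sum, hk, ← nsmul_one P.card, ← Finset.sum_const, ← Finset.sum_sub_distrib]
    refine Finset.sum_le_sum fun p hp => ?_
    have := (abs_le.1 (card_class A T (hP p hp).pos (c p))).1
    have e : (T : ℝ) * (1 / p) = T / p := by ring
    rw [e]
    linarith
  -- the second moment
  have e2 : ∑ t ∈ I, (cl c P t : ℝ) ^ 2 = ∑ p ∈ P, ∑ q ∈ P,
      (((I.filter fun t => t ≡ c p [ZMOD p] ∧ t ≡ c q [ZMOD q]).card : ℝ)) := by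
    have h1 : ∀ t : ℤ, (cl c P t : ℝ) ^ 2 = ∑ p ∈ P, ∑ q ∈ P,
        (if t ≡ c p [ZMOD p] ∧ t ≡ c q [ZMOD q] then (1 : ℝ) else 0) := by
      intro t
      unfold cl
      rw [pow_two, Finset.card_filter, Nat.cast_sum, Finset.sum_mul_sum]
      refine Finset.sum_congr rfl fun p _ => Finset.sum_congr rfl fun q _ => ?_
      by_cases g1 : t ≡ c p [ZMOD p] <;> by_cases g2 : t ≡ c q [ZMOD q] <;> simp [g1, g2]
    simp only [h1]
    rw [Finset.sum_comm]
    refine Finset.sum_congr rfl fun p _ => ?_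
    rw [Finset.sum_comm]
    refine Finset.sum_congr rfl fun q _ => ?_
    rw [Finset.card_filter, Nat.cast_sum]
    refine Finset.sum_congr rfl fun t _ => ?_
    split_ifs <;> simp
  have m2 : ∑ t ∈ I, (cl c P t : ℝ) ^ 2 ≤ T * μ + T * μ ^ 2 + k + k ^ 2 := by
    rw [e2]
    have h1 : ∀ p ∈ P, ∀ q ∈ P, (((I.filter fun t => t ≡ c p [ZMOD p] ∧ t ≡ c q [ZMOD q]).card : ℝ)) ≤
        (T * (1 / p * (1 / q)) + 1) + if p = q then (T * (1 / p) + 1 : ℝ) else 0 := by
      intro p hp q hq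
      have hp0 : (0 : ℝ) < p := by exact_mod_cast (hP p hp).pos
      have hq0 : (0 : ℝ) < q := by exact_mod_cast (hP q hq).pos
      by_cases hpq : p = q
      · subst hpq
        rw [if_pos rfl]
        have h2 : (I.filter fun t => t ≡ c p [ZMOD p] ∧ t ≡ c p [ZMOD p]) =
            I.filter fun t => t ≡ c p [ZMOD p] := by
          ext t; simp
        rw [h2]
        have := (abs_le.1 (card_class A T (hP p hp).pos (c p))).2
        have e : (T : ℝ) * (1 / p) = T / p := by ring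
        have h3 : (0 : ℝ) ≤ T * (1 / p * (1 / p)) := by positivity
        rw [e]
        linarith
      · rw [if_neg hpq, add_zero]
        obtain ⟨v, hv⟩ := pair_class (hP p hp) (hP q hq) hpq c
        have h2 : (I.filter fun t => t ≡ c p [ZMOD p] ∧ t ≡ c q [ZMOD q]) =
            I.filter fun t => t ≡ v [ZMOD (p * q : ℕ)] := by
          ext t
          rw [mem_filter, mem_filter, hv]
        rw [h2]
        have := (abs_le.1 (card_class A T (Nat.mul_pos (hP p hp).pos (hP q hq).pos) v)).2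
        have e : (T : ℝ) * (1 / p * (1 / q)) = T / (p * q : ℕ) := by
          push_cast
          field_simp
        rw [e]
        linarith
    refine (Finset.sum_le_sum fun p hp => Finset.sum_le_sum fun q hq => h1 p hp q hq).trans (le_of_eq ?_)
    have h2 : ∀ p ∈ P, ∑ q ∈ P, ((T * (1 / p * (1 / q)) + 1) + if p = q then (T * (1 / p) + 1 : ℝ) else 0) =
        T * (1 / p) * μ + k + (T * (1 / p) + 1) := by
      intro p hp
      rw [Finset.sum_add_distrib, Finset.sum_add_distrib, Finset.sum_ite_eq, if_pos hp,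
        Finset.sum_const, nsmul_eq_mul, mul_one, hμ, Finset.mul_sum, hk]
      congr 2
      refine Finset.sum_congr rfl fun q _ => ?_
      ring
    rw [Finset.sum_congr rfl h2, Finset.sum_add_distrib, Finset.sum_add_distrib, Finset.sum_add_distrib,
      Finset.sum_const, Finset.sum_const, nsmul_eq_mul, nsmul_eq_mul, ← Finset.sum_mul,
      ← Finset.mul_sum, ← hμ, ← hk]
    ring
  have hexp : ∑ t ∈ I, ((cl c P t : ℝ) - μ) ^ 2 =
      ∑ t ∈ I, (cl c P t : ℝ) ^ 2 - 2 * μ * ∑ t ∈ I, (cl c P t : ℝ) + T * μ ^ 2 := by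
    rw [← hIc, ← nsmul_eq_mul, ← Finset.sum_const, Finset.mul_sum, ← Finset.sum_sub_distrib,
      ← Finset.sum_add_distrib]
    refine Finset.sum_congr rfl fun t _ => ?_
    ring
  rw [hexp]
  have h3 : 2 * μ * (T * μ - k) ≤ 2 * μ * ∑ t ∈ I, (cl c P t : ℝ) := by gcongr
  have h4 : μ * k ≤ μ * T := by gcongr
  nlinarith

/-- **The law for arbitrary classes.** -/
theorem law : ∃ C : ℝ, 0 < C ∧ ∀ (c : ℕ → ℤ) (A : ℤ) (T : ℕ), 16 ≤ T →
    ∑ t ∈ Ioc A (A + T), |(cl c ((Icc 1 T).filter Nat.Prime) t : ℝ) - Real.log (Real.log T)| ≤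
      C * T * √(Real.log (Real.log T)) := by
  classical
  obtain ⟨C0, hC0⟩ := Pool.Agent.Erdos456.Mert.mertens_inv
  have hC00 : 0 ≤ C0 := (abs_nonneg _).trans (hC0 3 le_rfl)
  refine ⟨20 * (C0 + 2), by positivity, fun c A T hT => ?_⟩
  have hT0 : (0 : ℝ) < T := by exact_mod_cast (by omega : 0 < T)
  have hT16 : (16 : ℝ) ≤ T := by exact_mod_cast hT
  set z := Nat.sqrt T with hz
  have hz4 : 4 ≤ z := by
    rw [hz, Nat.le_sqrt]
    omega
  have hzz : z * z ≤ T := Nat.sqrt_le T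
  have hzz2 : T < (z + 1) * (z + 1) := Nat.lt_succ_sqrt T
  have hzT : z ≤ T := by nlinarith
  have hz0 : (0 : ℝ) < z := by exact_mod_cast (by omega : 0 < z)
  set L : ℝ := Real.log (Real.log T) with hL
  have hlogT : 2 ≤ Real.log T := by
    have h1 : Real.log 16 ≤ Real.log T := Real.log_le_log (by norm_num) hT16
    have e : Real.log 16 = 4 * Real.log 2 := by
      rw [show (16 : ℝ) = 2 ^ 4 by norm_num, Real.log_pow]; norm_num
    have := Real.log_two_gt_d9
    linarith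
  have hL1 : 1 ≤ L := by
    have h1 : Real.log 16 ≤ Real.log T := Real.log_le_log (by norm_num) hT16
    have e : Real.log 16 = 4 * Real.log 2 := by
      rw [show (16 : ℝ) = 2 ^ 4 by norm_num, Real.log_pow]; norm_num
    have h2 := Real.log_two_gt_d9
    rw [hL, Real.le_log_iff_exp_le (by linarith)]
    have := Real.exp_one_lt_d9
    linarith
  set P := (Icc 1 z).filter Nat.Prime with hP
  set R := ((Icc 1 T).filter Nat.Prime) \ P with hR
  set μ : ℝ := ∑ p ∈ P, (1 : ℝ) / p with hμ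
  have hPsub : P ⊆ (Icc 1 T).filter Nat.Prime := by
    intro p hp
    rw [hP, mem_filter, mem_Icc] at hp
    rw [mem_filter, mem_Icc]
    exact ⟨⟨hp.1.1, hp.1.2.trans hzT⟩, hp.2⟩
  have hPr : ∀ p ∈ P, p.Prime := fun p hp => (mem_filter.1 hp).2
  have hPcard : P.card ^ 2 ≤ T := by
    have h1 : P.card ≤ z := by
      refine (card_filter_le _ _).trans ?_
      simp
    calc P.card ^ 2 ≤ z ^ 2 := Nat.pow_le_pow_left h1 2
      _ = z * z := pow_two z
      _ ≤ T := hzz
  -- the sums of reciprocals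
  have k1 := abs_le.1 (hC0 z (by omega))
  have k2 := abs_le.1 (hC0 T (by omega))
  have hlz : Real.log T / 4 ≤ Real.log z := by
    have h1 : (T : ℝ) ≤ (z : ℝ) ^ 4 := by
      have h2 : T ≤ z ^ 4 := by
        calc T ≤ (z + 1) * (z + 1) := hzz2.le
          _ ≤ (z * z) * (z * z) := Nat.mul_le_mul (by nlinarith) (by nlinarith)
          _ = z ^ 4 := by ring
      exact_mod_cast h2
    have h3 := Real.log_le_log hT0 h1
    rw [Real.log_pow] at h3
    push_cast at h3
    linarith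
  have hlz2 : L - 2 ≤ Real.log (Real.log z) := by
    have h1 : Real.log (Real.log T / 4) ≤ Real.log (Real.log z) :=
      Real.log_le_log (by linarith) hlz
    rw [Real.log_div (by linarith) (by norm_num)] at h1
    have e : Real.log 4 = 2 * Real.log 2 := by
      rw [show (4 : ℝ) = 2 ^ 2 by norm_num, Real.log_pow]; norm_num
    have := Real.log_two_lt_d9
    linarith
  have hlz3 : Real.log (Real.log z) ≤ L := by
    have hz1 : (1 : ℝ) < z := by exact_mod_cast (by omega : 1 < z)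
    exact Real.log_le_log (Real.log_pos hz1) (Real.log_le_log hz0 (by exact_mod_cast hzT))
  have hμ1 : |μ - L| ≤ C0 + 2 := by
    rw [abs_le]
    constructor <;> linarith [k1.1, k1.2]
  have hRsum : ∑ p ∈ R, (1 : ℝ) / p ≤ 2 * C0 + 2 := by
    have h1 : ∑ p ∈ R, (1 : ℝ) / p + μ = ∑ p ∈ (Icc 1 T).filter Nat.Prime, (1 : ℝ) / p := by
      rw [hR, hμ]
      exact Finset.sum_sdiff hPsub
    linarith [k1.1, k2.2]
  set I := Ioc A (A + T) with hI
  have hIc : (I.card : ℝ) = T := by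
    rw [hI, Int.card_Ioc]
    simp
  -- splitting
  have hsplit : ∀ t : ℤ, (cl c ((Icc 1 T).filter Nat.Prime) t : ℝ) = cl c P t + cl c R t := by
    intro t
    unfold cl
    have h1 := Finset.card_filter_add_card_filter_not (s := ((Icc 1 T).filter Nat.Prime).filter
      fun p : ℕ => t ≡ c p [ZMOD p]) (fun p => p ∈ P)
    have h2 : (((Icc 1 T).filter Nat.Prime).filter fun p : ℕ => t ≡ c p [ZMOD p]).filter
        (fun p => p ∈ P) = P.filter fun p : ℕ => t ≡ c p [ZMOD p] := by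
      ext p
      simp only [mem_filter]
      constructor
      · rintro ⟨⟨_, g2⟩, g3⟩
        exact ⟨g3, g2⟩
      · rintro ⟨g3, g2⟩
        exact ⟨⟨mem_filter.1 (hPsub g3), g2⟩, g3⟩
    have h3 : (((Icc 1 T).filter Nat.Prime).filter fun p : ℕ => t ≡ c p [ZMOD p]).filter
        (fun p => ¬ p ∈ P) = R.filter fun p : ℕ => t ≡ c p [ZMOD p] := by
      ext p
      simp only [mem_filter, hR, mem_sdiff]
      tauto
    rw [h2, h3] at h1
    exact_mod_cast h1.symm
  -- the large primes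
  have hbig : ∑ t ∈ I, (cl c R t : ℝ) ≤ T * (2 * C0 + 3) := by
    have e1 : ∑ t ∈ I, (cl c R t : ℝ) = ∑ p ∈ R, (((I.filter fun t => t ≡ c p [ZMOD p]).card : ℝ)) := by
      unfold cl
      simp only [Finset.card_filter, Nat.cast_sum]
      exact Finset.sum_comm
    have h1 : ∀ p ∈ R, (((I.filter fun t => t ≡ c p [ZMOD p]).card : ℝ)) ≤ T * (1 / p) + 1 := by
      intro p hp
      have hpp : p.Prime := (mem_filter.1 (mem_sdiff.1 hp).1).2
      have := (abs_le.1 (card_class A T hpp.pos (c p))).2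
      have e : (T : ℝ) * (1 / p) = T / p := by ring
      rw [e]
      linarith
    rw [e1]
    refine (Finset.sum_le_sum h1).trans ?_
    rw [Finset.sum_add_distrib, ← Finset.mul_sum, Finset.sum_const, nsmul_eq_mul, mul_one]
    have h2 : (R.card : ℝ) ≤ T := by
      have : R.card ≤ T := by
        refine (card_le_card (sdiff_subset)).trans ((card_filter_le _ _).trans ?_)
        simp
      exact_mod_cast this
    have h3 : (T : ℝ) * ∑ p ∈ R, (1 : ℝ) / p ≤ T * (2 * C0 + 2) := by gcongr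
    linarith
  -- the small primes
  have hvar := variance c P hPr A T hPcard
  have hsmall : ∑ t ∈ I, |(cl c P t : ℝ) - μ| ≤ 2 * T * √(μ + 1) := by
    have h1 : (∑ t ∈ I, |(cl c P t : ℝ) - μ|) ^ 2 ≤ I.card * ∑ t ∈ I, |(cl c P t : ℝ) - μ| ^ 2 :=
      sq_sum_le_card_mul_sum_sq
    simp only [sq_abs] at h1
    have hμ0 : 0 ≤ μ := Finset.sum_nonneg fun p _ => by positivity
    have h2 : (∑ t ∈ I, |(cl c P t : ℝ) - μ|) ^ 2 ≤ (2 * T * √(μ + 1)) ^ 2 := by
      calc _ ≤ I.card * ∑ t ∈ I, ((cl c P t : ℝ) - μ) ^ 2 := h1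
        _ ≤ T * (4 * T * (μ + 1)) := by rw [hIc]; gcongr
        _ = (2 * T * √(μ + 1)) ^ 2 := by
            rw [mul_pow, mul_pow, Real.sq_sqrt (by linarith)]
            ring
    exact (abs_le_of_sq_le_sq' h2 (by positivity)).2
  have hsL : 1 ≤ √L := by
    rw [Real.one_le_sqrt]
    exact hL1
  have hsμ : √(μ + 1) ≤ (C0 + 2) * √L := by
    have h1 : μ + 1 ≤ (C0 + 2) ^ 2 * L := by
      have h2 := (abs_le.1 hμ1).2
      nlinarith [mul_nonneg hC00 (show (0 : ℝ) ≤ L - 1 by linarith), mul_nonneg hC00 hC00,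
        mul_nonneg (mul_nonneg hC00 hC00) (show (0 : ℝ) ≤ L - 1 by linarith)]
    calc √(μ + 1) ≤ √((C0 + 2) ^ 2 * L) := Real.sqrt_le_sqrt h1
      _ = (C0 + 2) * √L := by
          rw [Real.sqrt_mul (by positivity), Real.sqrt_sq (by linarith)]
  calc ∑ t ∈ I, |(cl c ((Icc 1 T).filter Nat.Prime) t : ℝ) - L|
      ≤ ∑ t ∈ I, (|(cl c P t : ℝ) - μ| + (C0 + 2) + cl c R t) := by
        refine Finset.sum_le_sum fun t _ => ?_
        rw [hsplit t]
        have h1 : (cl c P t : ℝ) + cl c R t - L = ((cl c P t : ℝ) - μ) + (μ - L) + cl c R t := by ring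
        rw [h1]
        have h2 : (0 : ℝ) ≤ (cl c R t : ℝ) := Nat.cast_nonneg _
        calc |((cl c P t : ℝ) - μ) + (μ - L) + cl c R t| ≤
              |((cl c P t : ℝ) - μ) + (μ - L)| + |(cl c R t : ℝ)| := abs_add_le _ _
          _ ≤ |(cl c P t : ℝ) - μ| + |μ - L| + |(cl c R t : ℝ)| := by
              gcongr
              exact abs_add_le _ _
          _ ≤ _ := by
              rw [abs_of_nonneg h2]
              gcongr
    _ = ∑ t ∈ I, |(cl c P t : ℝ) - μ| + T * (C0 + 2) + ∑ t ∈ I, (cl c R t : ℝ) := by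
        rw [Finset.sum_add_distrib, Finset.sum_add_distrib, Finset.sum_const, nsmul_eq_mul, hIc]
    _ ≤ 2 * T * ((C0 + 2) * √L) + T * (C0 + 2) + T * (2 * C0 + 3) := by
        have : 2 * (T : ℝ) * √(μ + 1) ≤ 2 * T * ((C0 + 2) * √L) := by gcongr
        linarith
    _ ≤ 20 * (C0 + 2) * T * √L := by
        have h1 : (0 : ℝ) ≤ T * (C0 + 2) := by positivity
        have h2 : (T : ℝ) * (C0 + 2) ≤ T * (C0 + 2) * √L := by nlinarith
        have h3 : (0 : ℝ) ≤ T * C0 := by positivity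
        nlinarith

end Pool.Agent.Q43.WP
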